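import Pool.Agent.H244.TM.Top

/-!
# Attractors of time maps and of roots

Author: helper244.
-/

set_option autoImplicit false

open scoped Topology
open Filter Set MeasureTheory

namespace Pool.Agent.H244.TM

open Pool.Agent.W5h74.FL (omegaLim FiniteAttractors)

universe u

variable {M : Type u} [TopologicalSpace M]

namespace CFlow

variable {φ : M → ℝ → M} (h : CFlow φ)
include h

lemma omega_sub {t : ℝ} (ht : 0 < t) (p : M) :
    Pool.Agent.H728R2.FA.omegaLim (fun y => φ y t) p ⊆ omegaLim φ p := by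
  intro q hq U hU T
  obtain ⟨K, hK⟩ := exists_nat_ge (T / t)
  obtain ⟨k, hk, hkU⟩ := hq U hU K
  refine ⟨k * t, ?_, ?_⟩
  · have h1 : T ≤ K * t := by rwa [div_le_iff₀ ht] at hK
    have h2 : (K : ℝ) ≤ k := by exact_mod_cast hk
    nlinarith
  · rw [← h.iterate]
    exact hkU

lemma inv_closure {Λ : Set M} (hinv : ∀ t, (fun x => φ x t) '' Λ = Λ) (t : ℝ) :
    (fun x => φ x t) '' closure Λ = closure Λ := by
  have h1 := (h.homeo t).image_closure Λ
  have h2 : (h.homeo t) '' Λ = Λ := hinv t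
  rw [h2] at h1
  exact h1

/-- **Almost all time maps.** If the flow has finitely many attractors covering `M`, then so has its
time-`t` map for all positive `t` outside of a meagre set. -/
theorem residual_fa [SecondCountableTopology M] [MeasurableSpace M] {μ : Measure M}
    (hfa : FiniteAttractors μ φ) :
    {t : ℝ | 0 < t → Pool.Agent.H728R2.FA.FiniteAttractors μ fun y => φ y t} ∈ residual ℝ := by
  obtain ⟨k, Λ, hΛ, hcov⟩ := hfa
  choose hinv x hxΛ hx hpos using fun i => (⟨(hΛ i).1, (hΛ i).2.1.choose,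
    (hΛ i).2.1.choose_spec.1, (hΛ i).2.1.choose_spec.2, (hΛ i).2.2⟩ :
      ∃ (_ : ∀ t, (fun x => φ x t) '' Λ i = Λ i) (x : M) (_ : x ∈ Λ i)
        (_ : Λ i ⊆ closure (φ x '' Ici 0)), 0 < μ {p | omegaLim φ p ⊆ Λ i})
  have h1 : ∀ i, {t : ℝ | 0 < t → closure (Λ i) ⊆
      closure (range fun k : ℕ => (fun y => φ y t)^[k] (x i))} ∈ residual ℝ := fun i =>
    h.residual_dense (h.inv_closure (hinv i)) (closure_minimal (hx i) isClosed_closure)
  refine mem_of_superset ((countable_iInter_mem (ι := Fin k)).2 h1) ?_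
  intro t ht h0
  have h2 : ∀ i, {p | omegaLim φ p ⊆ Λ i} ⊆
      {p | Pool.Agent.H728R2.FA.omegaLim (fun y => φ y t) p ⊆ closure (Λ i)} := fun i p hp =>
    ((h.omega_sub h0 p).trans hp).trans subset_closure
  refine ⟨k, fun i => closure (Λ i), fun i => ⟨h.inv_closure (hinv i) t,
    ⟨x i, subset_closure (hxΛ i), mem_iInter.1 ht i h0⟩, (hpos i).trans_le (measure_mono (h2 i))⟩,
    measure_mono_null ?_ hcov⟩
  intro p hp i hi
  exact hp i (h2 i hi)

end CFlow

/-- **Roots.** If a power of the homeomorphism `g` has finitely many attractors covering `M`, then so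
has `g`. -/
theorem fa_of_iterate [MeasurableSpace M] {μ : Measure M} (g : M ≃ₜ M) {k : ℕ} (hk : 1 ≤ k)
    (hfa : Pool.Agent.H728R2.FA.FiniteAttractors μ (g^[k])) :
    Pool.Agent.H728R2.FA.FiniteAttractors μ g := by
  obtain ⟨m, Λ, hΛ, hcov⟩ := hfa
  let Λ' : Fin m → Set M := fun i => ⋃ j : Fin k, g^[j] '' Λ i
  have hbas : ∀ i, {p | Pool.Agent.H728R2.FA.omegaLim (g^[k]) p ⊆ Λ i} ⊆
      {p | Pool.Agent.H728R2.FA.omegaLim g p ⊆ Λ' i} := by
    intro i p hp q hq
    -- a residue class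
    obtain ⟨j, hj⟩ : ∃ j : Fin k, ∀ U ∈ 𝓝 q, ∀ N : ℕ, ∃ a : ℕ, N ≤ a ∧
        g^[(j : ℕ) + k * a] p ∈ U := by
      by_contra hcon
      push Not at hcon
      choose U hU N hN using hcon
      have hUi : (⋂ j, U j) ∈ 𝓝 q := Filter.iInter_mem.2 hU
      obtain ⟨a, ha, haU⟩ := hq _ hUi (k * (∑ j, N j) + k)
      have hk0 : 0 < k := hk
      let j : Fin k := ⟨a % k, Nat.mod_lt _ hk0⟩
      refine hN j (a / k) ?_ ?_
      · have h1 : N j ≤ ∑ j, N j := Finset.single_le_sum (fun _ _ => Nat.zero_le _) (Finset.mem_univ j)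
        refine h1.trans ?_
        rw [Nat.le_div_iff_mul_le hk0]
        nlinarith
      · have e : (j : ℕ) + k * (a / k) = a := Nat.mod_add_div a k
        rw [e]
        exact mem_iInter.1 haU j
    -- pull back
    let q' : M := (g.symm)^[(j : ℕ)] q
    have hq' : g^[(j : ℕ)] q' = q := by
      have := (Function.LeftInverse.iterate (f := g.symm) (g := g) (fun x => by simp) (j : ℕ)) q
      exact this
    have hmem : q' ∈ Pool.Agent.H728R2.FA.omegaLim (g^[k]) p := by
      intro V hV N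
      have hc : Continuous (g.symm)^[(j : ℕ)] := g.symm.continuous.iterate _
      have hU : (g.symm)^[(j : ℕ)] ⁻¹' V ∈ 𝓝 q := hc.continuousAt hV
      obtain ⟨a, ha, haV⟩ := hj _ hU N
      refine ⟨a, ha, ?_⟩
      have e : (g.symm)^[(j : ℕ)] (g^[(j : ℕ) + k * a] p) = (g^[k])^[a] p := by
        rw [Function.iterate_add_apply, ← Function.iterate_mul]
        exact (Function.LeftInverse.iterate (f := g) (g := g.symm) (fun x => by simp) (j : ℕ)) _
      have h2 : (g.symm)^[(j : ℕ)] (g^[(j : ℕ) + k * a] p) ∈ V := haV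
      rwa [e] at h2
    exact mem_iUnion.2 ⟨j, q', hp hmem, hq'⟩
  refine ⟨m, Λ', fun i => ⟨?_, ?_, ?_⟩, ?_⟩
  · -- invariance
    obtain ⟨hinv, -, -⟩ := hΛ i
    have h1 : ∀ j : ℕ, g '' (g^[j] '' Λ i) = g^[j + 1] '' Λ i := by
      intro j
      rw [image_image]
      congr 1
      ext x
      rw [Function.iterate_succ_apply']
    apply Subset.antisymm
    · rw [image_iUnion]
      refine iUnion_subset fun j => ?_
      rw [h1]
      rcases Nat.lt_or_ge ((j : ℕ) + 1) k with h | h
      · exact subset_iUnion_of_subset ⟨(j : ℕ) + 1, h⟩ subset_rfl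
      · have e : (j : ℕ) + 1 = k := le_antisymm j.2 h
        rw [e, hinv]
        exact subset_iUnion_of_subset (⟨0, hk⟩ : Fin k) (by simp)
    · refine iUnion_subset fun j => ?_
      rcases Nat.eq_zero_or_pos (j : ℕ) with h | h
      · rw [h]
        have e : g^[0] '' Λ i = g '' (g^[k - 1] '' Λ i) := by
          rw [h1, Nat.sub_add_cancel hk, hinv]
          simp
        rw [e]
        exact image_mono (subset_iUnion_of_subset (⟨k - 1, by omega⟩ : Fin k) subset_rfl)
      · have e : g^[(j : ℕ)] '' Λ i = g '' (g^[(j : ℕ) - 1] '' Λ i) := by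
          rw [h1, Nat.sub_add_cancel h]
        rw [e]
        exact image_mono (subset_iUnion_of_subset
          (⟨(j : ℕ) - 1, by omega⟩ : Fin k) subset_rfl)
  · obtain ⟨-, ⟨x, hx, hd⟩, -⟩ := hΛ i
    refine ⟨x, mem_iUnion.2 ⟨⟨0, hk⟩, x, hx, rfl⟩, iUnion_subset fun j => ?_⟩
    have hc : Continuous g^[(j : ℕ)] := g.continuous.iterate _
    calc g^[(j : ℕ)] '' Λ i ⊆ g^[(j : ℕ)] '' closure (range fun n : ℕ => (g^[k])^[n] x) :=
          image_mono hd
      _ ⊆ closure (g^[(j : ℕ)] '' range fun n : ℕ => (g^[k])^[n] x) :=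
          image_closure_subset_closure_image hc
      _ ⊆ closure (range fun n : ℕ => g^[n] x) := by
          refine closure_mono ?_
          rintro _ ⟨_, ⟨n, rfl⟩, rfl⟩
          refine ⟨(j : ℕ) + k * n, ?_⟩
          show g^[(j : ℕ) + k * n] x = g^[(j : ℕ)] ((g^[k])^[n] x)
          rw [Function.iterate_add_apply, ← Function.iterate_mul]
  · exact (hΛ i).2.2.trans_le (measure_mono (hbas i))
  · refine measure_mono_null ?_ hcov
    intro p hp i hi
    exact hp i (hbas i hi)

end Pool.Agent.H244.TM
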