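import Pool.Agent.H244.TM.Fa

/-!
# Time maps of vector fields with finitely many attractors, and maps with a power in the flow

Author: helper244.
-/

set_option autoImplicit false

open scoped Manifold ContDiff Topology
open Filter Set MeasureTheory

namespace Pool.Agent.H244.TM

open Pool.Agent.W5h74.FL
open Pool.Agent.H718R2.G (DiffM strongTop)

universe u

variable {n : ℕ} {N : Type u} [TopologicalSpace N] [T2Space N] [CompactSpace N]
  [ChartedSpace (V n) N] [IsManifold (𝓡 n) ∞ N] {r : ℕ∞}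

/-- the flow of a field is a continuous flow -/
lemma cflow (hr : 1 ≤ r) (X : VField n N r) : CFlow (theFlow hr X) where
  cont := flow_continuous (X.c1 hr) (theFlow_isFlow hr X)
  zero := theFlow_zero hr X
  add := theFlow_add hr X

/-- the time-`t` map of `X` -/
noncomputable def timeT (hr : 1 ≤ r) (X : VField n N r) (t : ℝ) : DiffM n N r where
  toFun x := theFlow hr X x t
  invFun x := theFlow hr X x (-t)
  left_inv x := by
    show theFlow hr X (theFlow hr X x t) (-t) = x
    rw [← theFlow_add, add_neg_cancel, theFlow_zero]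
  right_inv x := by
    show theFlow hr X (theFlow hr X x (-t)) t = x
    rw [← theFlow_add, neg_add_cancel, theFlow_zero]
  contMDiff_toFun := contMDiff_theFlow hr X t
  contMDiff_invFun := contMDiff_theFlow hr X (-t)

lemma timeT_apply (hr : 1 ≤ r) (X : VField n N r) (t : ℝ) (x : N) :
    timeT hr X t x = theFlow hr X x t := rfl

lemma timeT_one (hr : 1 ≤ r) (X : VField n N r) : timeT hr X 1 = timeOne hr X := rfl

/-- The maps `R ∘ φ_t` depend continuously on `t`. -/
theorem eventually_mem (hr : 1 ≤ r) (X : VField n N r) (R : DiffM n N r) (s : ℝ)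
    {U : Set (DiffM n N r)} (hU : IsOpen[strongTop n N r] U) (h0 : (timeT hr X s).trans R ∈ U) :
    ∀ᶠ t in 𝓝 s, (timeT hr X t).trans R ∈ U := by
  rcases isEmpty_or_nonempty N with hN | ⟨⟨z⟩⟩
  · refine Eventually.of_forall fun a => ?_
    have : (timeT hr X a).trans R = (timeT hr X s).trans R := by
      ext x
      exact hN.elim x
    rw [this]
    exact h0
  have hfl : ContMDiff ((𝓡 n).prod 𝓘(ℝ, ℝ)) (𝓡 n) (r : ℕ∞ω)
      (fun p : N × ℝ => theFlow hr X p.1 p.2) :=
    contMDiff_flow_r hr X.contMDiff (Fl := theFlow hr X)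
      (fun x => (theFlow_isFlow hr X x).1) (fun x => (theFlow_isFlow hr X x).2)
  have hfam : Pool.Agent.W564.SC.IsFam n N r (fun a : ℝ => (timeT hr X (s + a)).trans R) := by
    intro y
    have h1 : ContMDiff (𝓘(ℝ, ℝ).prod (𝓡 n)) ((𝓡 n).prod 𝓘(ℝ, ℝ)) (r : ℕ∞ω)
        (fun q : ℝ × N => (q.2, s + q.1)) :=
      contMDiff_snd.prodMk ((contMDiff_const (c := s)).add contMDiff_fst)
    have h2 : ContMDiff (𝓘(ℝ, ℝ).prod (𝓡 n)) (𝓡 n) (r : ℕ∞ω)
        (fun q : ℝ × N => R (theFlow hr X q.2 (s + q.1))) :=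
      R.contMDiff.comp (hfl.comp h1)
    exact h2 (0, y)
  obtain ⟨κ, hκ, h⟩ := Pool.Agent.TH80.CLX.fam_mem r hr _ hfam z U hU (by
    show (timeT hr X (s + 0)).trans R ∈ U
    rw [add_zero]
    exact h0)
  rw [Metric.eventually_nhds_iff]
  refine ⟨κ, hκ, fun t ht => ?_⟩
  have h1 := h (t - s) (by
    rw [Real.dist_eq] at ht
    rwa [Real.norm_eq_abs])
  have e : s + (t - s) = t := by ring
  rw [e] at h1
  exact h1

/-- powers of `R ∘ φ_t` -/
lemma iterate_comp (hr : 1 ≤ r) (X : VField n N r) (R : DiffM n N r)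
    (hR : ∀ x t, R (theFlow hr X x t) = theFlow hr X (R x) t) (t : ℝ) (j : ℕ) (x : N) :
    ((timeT hr X t).trans R)^[j] x = theFlow hr X (R^[j] x) (j * t) := by
  induction j with
  | zero => simp [theFlow_zero]
  | succ j ih =>
    rw [Function.iterate_succ_apply', ih, Function.iterate_succ_apply']
    show R (theFlow hr X (theFlow hr X (R^[j] x) (j * t)) t) = _
    rw [← theFlow_add, hR]
    congr 1
    push_cast
    ring

/-- **Maps with a power in the flow.** -/
theorem approx_root (hr : 1 ≤ r) (X : VField n N r) [MeasurableSpace N] {μ : Measure N}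
    (hfa : FiniteAttractors μ (theFlow hr X)) (R : DiffM n N r)
    (hR : ∀ x t, R (theFlow hr X x t) = theFlow hr X (R x) t) {k : ℕ} (hk : 1 ≤ k) {T : ℝ}
    (hRk : ∀ x, R^[k] x = theFlow hr X x T) {s : ℝ} (hs : 0 ≤ T + k * s)
    {U : Set (DiffM n N r)} (hU : IsOpen[strongTop n N r] U) (h0 : (timeT hr X s).trans R ∈ U) :
    ∃ t, s < t ∧ (timeT hr X t).trans R ∈ U ∧
      Pool.Agent.H728R2.FA.FiniteAttractors μ ((timeT hr X t).trans R) := by
  have : SecondCountableTopology N := ChartedSpace.secondCountable_of_sigmaCompact (V n) N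
  have hkR : (0 : ℝ) < k := by exact_mod_cast hk
  have h1 := (cflow hr X).residual_fa hfa
  -- pull back by the affine map `t ↦ T + k t`
  let e : ℝ ≃ₜ ℝ := (Homeomorph.mulLeft₀ (k : ℝ) hkR.ne').trans (Homeomorph.addLeft T)
  have he : ∀ t, e t = T + k * t := fun t => rfl
  have h2 : e ⁻¹' {t : ℝ | 0 < t → Pool.Agent.H728R2.FA.FiniteAttractors μ
      fun y => theFlow hr X y t} ∈ residual ℝ := by
    rw [mem_residual] at h1 ⊢
    obtain ⟨G, hG, hGδ, hGd⟩ := h1
    exact ⟨e ⁻¹' G, preimage_mono hG, hGδ.preimage e.continuous, hGd.preimage e.isOpenMap⟩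
  have h3 := eventually_mem hr X R s hU h0
  obtain ⟨ε, hε, hb⟩ := Metric.eventually_nhds_iff.1 h3
  have hd := dense_of_mem_residual h2
  obtain ⟨t, ht, htG⟩ := hd.exists_mem_open (isOpen_Ioo (a := s) (b := s + ε)) ⟨s + ε / 2, by
    constructor <;> linarith⟩
  refine ⟨t, htG.1, hb ?_, ?_⟩
  · rw [Real.dist_eq, abs_lt]
    constructor <;> linarith [htG.1, htG.2]
  · have h4 : 0 < T + k * t := by nlinarith [htG.1]
    have h5 := ht h4
    refine fa_of_iterate ((timeT hr X t).trans R).toHomeomorph hk ?_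
    have h6 : (((timeT hr X t).trans R).toHomeomorph : N → N)^[k] = fun y => theFlow hr X y (e t) := by
      funext x
      have := iterate_comp hr X R hR t k x
      rw [hRk, ← theFlow_add] at this
      exact this
    rw [h6]
    exact h5

/-- **Time-one maps of fields with a weak Lyapunov function.** -/
theorem approx_lyap (hr : 1 ≤ r) (X : VField n N r) {h : N → ℝ}
    (hh : ContMDiff (𝓡 n) 𝓘(ℝ, ℝ) ((r + 1 : ℕ∞) : ℕ∞ω) h)
    (hm : ∀ x, 0 ≤ dirDeriv (fun x => X x) h x) {φ : N → ℝ → N} (hφ : IsFlow (fun x => X x) φ)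
    {O : Set N} (hO : IsOpen O) {A : CoMap n N} (hA : IsCr r A)
    (hpos : ∀ (x : N) (ξ : V n →ₗ[ℝ] ℝ), 0 ≤ ξ (A x ξ))
    (hXA : ∀ x ∈ O, X.fld x = A x (diff n h x))
    {m : ℕ} (M : Fin m → Set N) (hcl : ∀ i, IsClosed (M i))
    (hdis : ∀ i j, i ≠ j → Disjoint (M i) (M j)) (hMO : ∀ i, Disjoint (M i) (closure O))
    (hC : ∀ i, ∀ x ∈ M i, IsCrit n h x) (hinv : ∀ i t, (fun x => φ x t) '' M i = M i)
    (htr : ∀ i, ∃ x ∈ M i, M i ⊆ closure (φ x '' Ici 0))
    (hcov : ∀ x, (∀ t, IsCrit n h (φ x t)) → x ∈ O ∨ ∃ i, x ∈ M i)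
    (U' : Set (DiffM n N r)) (hU' : IsOpen[strongTop n N r] U') (hXU' : timeOne hr X ∈ U') :
    ∃ G ∈ U', ∀ (_ : MeasurableSpace N) (μ : Measure N),
      Pool.Agent.H728R2.FA.FiniteAttractors μ G := by
  have : SecondCountableTopology N := ChartedSpace.secondCountable_of_sigmaCompact (V n) N
  obtain ⟨Y, hYU, k, P, hP, hPM, hY⟩ := approx_general hr X hh hm hφ hO hA hpos hXA M hcl hdis hMO
    hC hinv htr hcov {X | timeOne hr X ∈ U'} (affOpen_timeOne hr hU') hXU'
  obtain ⟨h1, h2, h3⟩ := hY _ (theFlow_isFlow hr Y)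
  set ψ := theFlow hr Y with hψ
  have hinv' : ∀ i t, (fun x => ψ x t) '' M i = M i := by
    intro i t
    conv_rhs => rw [← hinv i t]
    exact Set.image_congr fun x hx => congrFun (h2 i x hx) t
  choose x hxM hx using htr
  have hx' : ∀ i, M i ⊆ closure (ψ (x i) '' Ici 0) := by
    intro i
    rw [h2 i _ (hxM i)]
    exact hx i
  have h4 : ∀ i, {t : ℝ | 0 < t → M i ⊆
      closure (range fun k : ℕ => (fun y => ψ y t)^[k] (x i))} ∈ residual ℝ := fun i =>
    (cflow hr Y).residual_dense (hinv' i) (hx' i)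
  have h5 := (countable_iInter_mem (ι := Fin m)).2 h4
  have h6 := eventually_mem hr Y (Diffeomorph.refl (𝓡 n) N r) 1 hU' (by exact hYU)
  obtain ⟨ε, hε, hb⟩ := Metric.eventually_nhds_iff.1 h6
  obtain ⟨t, ht, htG⟩ := (dense_of_mem_residual h5).exists_mem_open
    (isOpen_Ioo (a := 1) (b := 1 + ε)) ⟨1 + ε / 2, by constructor <;> linarith⟩
  have ht0 : 0 < t := by linarith [htG.1]
  refine ⟨(timeT hr Y t).trans (Diffeomorph.refl (𝓡 n) N r), hb ?_, fun _ μ => ?_⟩
  · rw [Real.dist_eq, abs_lt]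
    constructor <;> linarith [htG.1, htG.2]
  · have hG : (((timeT hr Y t).trans (Diffeomorph.refl (𝓡 n) N r) : DiffM n N r) : N → N) =
        fun y => ψ y t := rfl
    rw [hG]
    refine fa_of_cover (Fin.append (fun i => ({P i} : Set N)) M) ?_ ?_ ?_ μ
    · refine Fin.addCases (fun i => ?_) (fun i => ?_)
      · rw [Fin.append_left, image_singleton, h1]
      · rw [Fin.append_right]
        exact hinv' i t
    · refine Fin.addCases (fun i => ?_) (fun i => ?_)
      · rw [Fin.append_left]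
        exact ⟨P i, rfl, singleton_subset_iff.2 (subset_closure ⟨0, rfl⟩)⟩
      · rw [Fin.append_right]
        exact ⟨x i, hxM i, mem_iInter.1 ht i ht0⟩
    · intro p
      rcases h3 p with ⟨i, hi⟩ | ⟨j, hj⟩
      · refine ⟨Fin.castAdd m i, ?_⟩
        rw [Fin.append_left]
        exact ((cflow hr Y).omega_sub ht0 p).trans hi
      · refine ⟨Fin.natAdd k j, ?_⟩
        rw [Fin.append_right]
        exact ((cflow hr Y).omega_sub ht0 p).trans hj

end Pool.Agent.H244.TM
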