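import Pool.Graph.R_pool_sql_team_seeded_9f66d723.W5h74.FL.PartD

/-!
# The time maps of a flow with finitely many attractors

Author: helper244.
-/

set_option autoImplicit false

open scoped Topology
open Filter Set MeasureTheory

namespace Pool.Agent.H244.TM

open Pool.Agent.W5h74.FL (omegaLim)

universe u

variable {M : Type u} [TopologicalSpace M]

/-- `φ` is a continuous flow on `M`. -/
structure CFlow (φ : M → ℝ → M) : Prop where
  cont : Continuous fun p : M × ℝ => φ p.1 p.2
  zero : ∀ x, φ x 0 = x
  add : ∀ x s t, φ x (s + t) = φ (φ x s) t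

namespace CFlow

variable {φ : M → ℝ → M} (h : CFlow φ)
include h

lemma cont_x (t : ℝ) : Continuous fun x => φ x t :=
  h.cont.comp (continuous_id.prodMk continuous_const)

lemma cont_t (x : M) : Continuous (φ x) :=
  h.cont.comp (continuous_const.prodMk continuous_id)

lemma iterate (t : ℝ) (x : M) (k : ℕ) : (fun y => φ y t)^[k] x = φ x (k * t) := by
  induction k with
  | zero => simp [h.zero]
  | succ k ih =>
    rw [Function.iterate_succ_apply', ih, ← h.add]
    congr 1
    push_cast
    ring

/-- the time maps are homeomorphisms -/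
def homeo (t : ℝ) : M ≃ₜ M where
  toFun x := φ x t
  invFun x := φ x (-t)
  left_inv x := by
    show φ (φ x t) (-t) = x
    rw [← h.add, add_neg_cancel, h.zero]
  right_inv x := by
    show φ (φ x (-t)) t = x
    rw [← h.add, neg_add_cancel, h.zero]
  continuous_toFun := h.cont_x t
  continuous_invFun := h.cont_x (-t)

/-- The forward orbit of a point which is dense in an invariant set returns to all its open
subsets at arbitrarily large times. -/
lemma returns {Λ : Set M} (hinv : ∀ t, (fun x => φ x t) '' Λ = Λ) {x : M}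
    (hx : Λ ⊆ closure (φ x '' Ici 0)) {U : Set M} (hU : IsOpen U) (hUΛ : (U ∩ Λ).Nonempty)
    (T : ℝ) : ∃ t ≥ T, φ x t ∈ U := by
  obtain ⟨y, hyU, hyΛ⟩ := hUΛ
  obtain ⟨z, hz, rfl⟩ : y ∈ (fun x => φ x T) '' Λ := by rw [hinv]; exact hyΛ
  have h1 : IsOpen ((fun x => φ x T) ⁻¹' U) := hU.preimage (h.cont_x T)
  obtain ⟨w, hw, s, hs, rfl⟩ := mem_closure_iff.1 (hx hz) _ h1 hyU
  refine ⟨s + T, by linarith [mem_Ici.1 hs], ?_⟩
  rw [h.add]
  exact hw

/-- **Oxtoby and Ulam.** A forward orbit which is dense in the invariant set `Λ` is dense in it along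
the multiples of `t`, for all positive `t` outside of a meagre set. -/
theorem residual_dense [SecondCountableTopology M] {Λ : Set M}
    (hinv : ∀ t, (fun x => φ x t) '' Λ = Λ) {x : M} (hx : Λ ⊆ closure (φ x '' Ici 0)) :
    {t : ℝ | 0 < t → Λ ⊆ closure (range fun k : ℕ => (fun y => φ y t)^[k] x)} ∈ residual ℝ := by
  obtain ⟨B, hBc, -, hB⟩ := TopologicalSpace.exists_countable_basis M
  have key : ∀ U ∈ {U ∈ B | (U ∩ Λ).Nonempty},
      {t : ℝ | 0 < t → ∃ k : ℕ, φ x (k * t) ∈ U} ∈ residual ℝ := by
    rintro U ⟨hUB, hUΛ⟩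
    have hUo : IsOpen U := hB.isOpen hUB
    let S : Set ℝ := Iio 0 ∪ {t : ℝ | 0 < t ∧ ∃ k : ℕ, φ x (k * t) ∈ U}
    have hSo : IsOpen S := by
      refine isOpen_Iio.union ?_
      have e : {t : ℝ | 0 < t ∧ ∃ k : ℕ, φ x (k * t) ∈ U} =
          Ioi 0 ∩ ⋃ k : ℕ, (fun t : ℝ => φ x (k * t)) ⁻¹' U := by
        ext t
        simp
      rw [e]
      refine isOpen_Ioi.inter (isOpen_iUnion fun k => hUo.preimage ?_)
      exact (h.cont_t x).comp (continuous_const.mul continuous_id)
    have hSd : Dense S := by
      rw [dense_iff_inter_open]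
      rintro V hV ⟨v, hv⟩
      obtain ⟨a, b, hab, habV⟩ : ∃ a b : ℝ, a < b ∧ Ioo a b ⊆ V := by
        obtain ⟨ε, hε, hb⟩ := Metric.isOpen_iff.1 hV v hv
        refine ⟨v - ε, v + ε, by linarith, ?_⟩
        rw [← Real.ball_eq_Ioo]
        exact hb
      by_cases ha : a < 0
      · refine ⟨(a + min b 0) / 2, habV ⟨?_, ?_⟩, Or.inl ?_⟩
        · have : a < min b 0 := lt_min hab ha
          linarith
        · have := min_le_left b 0
          have : a < min b 0 := lt_min hab ha
          linarith
        · have h1 := min_le_right b 0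
          show (a + min b 0) / 2 < 0
          linarith
      · push Not at ha
        -- all large times are in some `(k a, k b)`
        obtain ⟨k₀, hk₀⟩ := exists_nat_gt ((a + b) / (b - a) + 1)
        have hba : 0 < b - a := by linarith
        obtain ⟨s, hs, hsU⟩ := h.returns hinv hx hUo hUΛ (k₀ * b + 1)
        have hb0 : 0 < b := by linarith
        have hs0 : 0 < s := by
          have : (0 : ℝ) ≤ k₀ * b := by positivity
          linarith
        -- `k` the least integer `> s / b`
        obtain ⟨k, hk⟩ : ∃ k : ℕ, k = ⌊s / b⌋₊ + 1 := ⟨_, rfl⟩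
        have hk1 : s / b < k := by
          rw [hk]
          push_cast
          exact Nat.lt_floor_add_one _
        have hk2 : (k : ℝ) ≤ s / b + 1 := by
          rw [hk]
          push_cast
          have := Nat.floor_le (div_nonneg hs0.le hb0.le)
          linarith
        have hk0 : (0 : ℝ) < k := lt_of_le_of_lt (div_nonneg hs0.le hb0.le) hk1
        have h3 : s < k * b := by
          rwa [div_lt_iff₀ hb0] at hk1
        have h4 : (k : ℝ) * b ≤ s + b := by
          have := mul_le_mul_of_nonneg_right hk2 hb0.le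
          rwa [add_mul, div_mul_cancel₀ _ hb0.ne', one_mul] at this
        have h5 : (k₀ : ℝ) < k := by
          have h6 : (k₀ : ℝ) * b < k * b := by linarith
          exact lt_of_mul_lt_mul_right h6 hb0.le
        have h7 : (k : ℝ) * a < s := by
          have h8 : (a + b) / (b - a) + 1 < k := hk₀.trans h5
          have h9 : (a + b) < (k - 1) * (b - a) := by
            have : (a + b) / (b - a) < k - 1 := by linarith
            rwa [div_lt_iff₀ hba] at this
          nlinarith
        refine ⟨s / k, habV ⟨?_, ?_⟩, Or.inr ⟨div_pos hs0 hk0, k, ?_⟩⟩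
        · rw [lt_div_iff₀ hk0]
          linarith
        · rw [div_lt_iff₀ hk0]
          linarith
        · rw [mul_div_cancel₀ _ hk0.ne']
          exact hsU
    refine mem_of_superset (residual_of_dense_open hSo hSd) ?_
    rintro t (ht | ⟨-, ht⟩) h0
    · exact absurd h0 (not_lt.2 (mem_Iio.1 ht).le)
    · exact ht
  have hcount : Set.Countable {U ∈ B | (U ∩ Λ).Nonempty} := hBc.mono (sep_subset _ _)
  have := (countable_bInter_mem hcount).2 key
  refine mem_of_superset this ?_
  intro t ht h0 y hy
  rw [hB.mem_closure_iff]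
  intro U hU hyU
  obtain ⟨k, hk⟩ := mem_iInter₂.1 ht U ⟨hU, ⟨y, hyU, hy⟩⟩ h0
  exact ⟨_, hk, k, h.iterate t x k⟩

end CFlow

end Pool.Agent.H244.TM
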